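import Mathlib
import Pool.Agent.Lib.H61I.Kp

set_option autoImplicit false

/-!
# MP_50b10a_an, Q1: the coefficient ratio `K_p` is larger than `1` at `p = 1/2`
-/

namespace Pool.Agent.Results.MP_50b10a_an.RatioAboveOneAtHalf

open Filter Topology
open scoped ENNReal

/-- The class `S`: analytic injective functions `f(z) = z + a_2 z^2 + ...` on the unit disk. -/
def ClassS (f : ℂ → ℂ) : Prop :=
  DifferentiableOn ℂ f (Metric.ball 0 1) ∧ Set.InjOn f (Metric.ball 0 1) ∧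
    f 0 = 0 ∧ deriv f 0 = 1

/-- `h` is, on the unit disk, the analytic branch of `log (f(z)/z)` with value `0` at `0`. -/
def IsLogBranch (f h : ℂ → ℂ) : Prop :=
  DifferentiableOn ℂ h (Metric.ball 0 1) ∧ h 0 = 0 ∧
    ∀ z ∈ Metric.ball (0 : ℂ) 1, f z = z * Complex.exp (h z)

open Classical in
/-- The branch of `log (f(z)/z)` (it exists and is unique on the disk for `f` in `S`, see
`result`). -/
noncomputable def logBranch (f : ℂ → ℂ) : ℂ → ℂ :=
  if H : ∃ h, IsLogBranch f h then H.choose else 0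

/-- The Taylor coefficient `a_{n,p}` of `z^n` in `(f(z)/z)^p = exp (p log (f(z)/z))`. -/
noncomputable def coeff (n : ℕ) (p : ℝ) (f : ℂ → ℂ) : ℂ :=
  iteratedDeriv n (fun z => Complex.exp ((p : ℂ) * logBranch f z)) 0 / (n.factorial : ℂ)

/-- `A_{n,p} = sup |a_{n,p}|` over `f` in `S`, a supremum in `[0, ∞]`. -/
noncomputable def A (n : ℕ) (p : ℝ) : ℝ≥0∞ :=
  ⨆ (f : ℂ → ℂ) (_ : ClassS f), ENNReal.ofReal ‖coeff n p f‖

/-- `b_{n,p} = Γ(2p+n) / (Γ(n+1) Γ(2p))`. -/
noncomputable def b (n : ℕ) (p : ℝ) : ℝ :=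
  Real.Gamma (2 * p + n) / (Real.Gamma ((n : ℝ) + 1) * Real.Gamma (2 * p))

/-- **Q1, answered negatively: `K_p > 1` at `p = 1/2`.** There is `ε > 0` such that
`A_{n,1/2} / b_{n,1/2} ≥ 1 + ε` for all large `n`; so the limit `K_{1/2}` is at least `1 + ε`,
although `p = 1/2` lies in `[1/2, 1)`. The first part says that the branch of `(f(z)/z)^p` used in
the definition of `a_{n,p}` exists and is unique, for every `f` in `S`. -/
theorem result :
    (∀ f, ClassS f → IsLogBranch f (logBranch f) ∧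
      ∀ h, IsLogBranch f h → Set.EqOn h (logBranch f) (Metric.ball 0 1)) ∧
    ∃ ε : ℝ, 0 < ε ∧
      (∀ᶠ n : ℕ in atTop,
        ENNReal.ofReal (1 + ε) ≤ A n (1 / 2) / ENNReal.ofReal (b n (1 / 2))) ∧
      ∀ K : ℝ≥0∞,
        Tendsto (fun n : ℕ => A n (1 / 2) / ENNReal.ofReal (b n (1 / 2))) atTop (𝓝 K) →
          ENNReal.ofReal (1 + ε) ≤ K := by
  have hbr : ∀ f, ClassS f → IsLogBranch f (logBranch f) := by
    intro f hf
    have H : ∃ h, IsLogBranch f h := Lib.H61I.Kp.exists_branch hf.1 hf.2.1 hf.2.2.1 hf.2.2.2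
    rw [logBranch, dif_pos H]
    exact H.choose_spec
  have huniq : ∀ f, ClassS f → ∀ h, IsLogBranch f h →
      Set.EqOn h (logBranch f) (Metric.ball 0 1) := by
    intro f hf h hh
    obtain ⟨h1, h2, h3⟩ := hbr f hf
    exact Lib.H61I.Kp.branch_unique h1 h2 h3 hh.1 hh.2.1 hh.2.2
  obtain ⟨ε, hε, hev⟩ := Lib.H38.Kp.exists_gain
  have hden : ∀ n : ℕ, b n (1 / 2) = 1 := by
    intro n
    have h1 : (2 * (1 / 2 : ℝ)) = 1 := by norm_num
    rw [b, h1, Real.Gamma_one, mul_one, add_comm (1 : ℝ) (n : ℝ)]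
    exact div_self (Real.Gamma_pos_of_pos (by positivity)).ne'
  have hev' : ∀ᶠ n : ℕ in atTop,
      ENNReal.ofReal (1 + ε) ≤ A n (1 / 2) / ENNReal.ofReal (b n (1 / 2)) := by
    filter_upwards [hev] with n hn
    obtain ⟨c, ⟨f, h, hf, hinj, hf0, hf1, hh, hh0, hhe, hc⟩, hc1⟩ := hn
    have hS : ClassS f := ⟨hf, hinj, hf0, hf1⟩
    have hL : IsLogBranch f h := by
      refine ⟨hh, hh0, fun z hz => ?_⟩
      by_cases hz0 : z = 0
      · rw [hz0, hf0, zero_mul]
      · exact (hhe z hz hz0).symm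
    have heq := huniq f hS h hL
    have hco : ‖coeff n (1 / 2) f‖ = c := by
      have hev2 : (fun z => Complex.exp (((1 / 2 : ℝ) : ℂ) * logBranch f z)) =ᶠ[𝓝 0]
          (fun z => Complex.exp (((1 / 2 : ℝ) : ℂ) * h z)) := by
        filter_upwards [Metric.ball_mem_nhds (0 : ℂ) one_pos] with z hz
        rw [heq hz]
      rw [coeff, hev2.iteratedDeriv_eq, norm_div, Complex.norm_natCast, hc]
    rw [hden, ENNReal.ofReal_one, div_one]
    calc ENNReal.ofReal (1 + ε) ≤ ENNReal.ofReal ‖coeff n (1 / 2) f‖ :=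
          ENNReal.ofReal_le_ofReal (by rw [hco]; exact hc1)
      _ ≤ A n (1 / 2) := le_iSup₂_of_le (f := fun (f : ℂ → ℂ) (_ : ClassS f) =>
          ENNReal.ofReal ‖coeff n (1 / 2) f‖) f hS le_rfl
  exact ⟨fun f hf => ⟨hbr f hf, huniq f hf⟩, ε, hε, hev', fun K hK => ge_of_tendsto hK hev'⟩

end Pool.Agent.Results.MP_50b10a_an.RatioAboveOneAtHalf
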